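import Pool.Agent.H24.CL.Targets

/-!
# Board clv_modules, row TY
Every alive point lies in the first set of one of boundedly many chains, or some descendant is too
high.
-/

set_option autoImplicit false

open Finset MeasureTheory

namespace Pool.Agent.H4.CLV

open Pool.Agent.H24.CL

/-! ### measurability -/

theorem cont_phi (k q b : ℕ) : Continuous (phi q b : X k → X k) := by
  refine continuous_pi fun i => ?_
  change Continuous fun a : X k => ∑ j : Fin k,
    (Nat.choose (j.val + 1) (i.val + 1) * b ^ (j.val - i.val) * q ^ (i.val + 1)) • a j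
  exact continuous_finsetSum _ fun j _ => (continuous_apply j).nsmul _

theorem cont_P (k n : ℕ) : Continuous (fun a : X k => P a n) := by
  unfold P
  exact continuous_finsetSum _ fun j _ => (continuous_apply j).nsmul _

/-- the sum over the children in `V` -/
noncomputable def sm {k : ℕ} (q N : ℕ) (V : Set (X k)) (w : X k) : ℂ :=
  ∑ b ∈ pos q V w, e (P w b) * u N (phi q b w)

theorem sm_meas (hEX : T_EX) {k : ℕ} (q N : ℕ) {V : Set (X k)} (hV : MeasurableSet V) :
    Measurable (sm q N V) := by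
  classical
  obtain ⟨-, -, -, -, he, -, -, hu, -⟩ := hEX
  have h1 : sm q N V = fun w => ∑ b ∈ range q, ((phi q b : X k → X k) ⁻¹' V).indicator
      (fun w => e (P w b) * u N (phi q b w)) w := by
    funext w
    unfold sm pos
    rw [Finset.sum_filter]
    refine Finset.sum_congr rfl fun b _ => ?_
    by_cases h : phi q b w ∈ V
    · rw [if_pos h, Set.indicator_of_mem (by exact h)]
    · rw [if_neg h, Set.indicator_of_notMem (by exact h)]
  rw [h1]
  refine Finset.measurable_sum _ fun b _ => ?_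
  refine Measurable.indicator ?_ ((cont_phi k q b).measurable hV)
  exact ((he.comp (cont_P k b)).mul ((hu k N).comp (cont_phi k q b))).measurable

theorem card_meas {k : ℕ} (q : ℕ) {V : Set (X k)} (hV : MeasurableSet V) :
    Measurable fun w : X k => ((pos q V w).card : ℝ) := by
  classical
  have h1 : (fun w : X k => ((pos q V w).card : ℝ)) = fun w => ∑ b ∈ range q,
      ((phi q b : X k → X k) ⁻¹' V).indicator (fun _ => (1 : ℝ)) w := by
    funext w
    unfold pos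
    rw [Finset.card_filter, Nat.cast_sum]
    refine Finset.sum_congr rfl fun b _ => ?_
    by_cases h : phi q b w ∈ V
    · rw [if_pos h, Set.indicator_of_mem (by exact h), Nat.cast_one]
    · rw [if_neg h, Set.indicator_of_notMem (by exact h), Nat.cast_zero]
  rw [h1]
  exact Finset.measurable_sum _ fun b _ =>
    measurable_const.indicator ((cont_phi k q b).measurable hV)

theorem nu_meas (hEX : T_EX) {k : ℕ} (N : ℕ) : Measurable fun w : X k => ‖u N w‖ :=
  (hEX.2.2.2.2.2.2.2.1 k N).norm.measurable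

/-! ### chains, counted from the bottom -/

/-- A chain of classes, the level `i` belongs to the length `q ^ i * L`. -/
structure Up (k q L M : ℕ) (T ρ a b : ℝ) (V : ℕ → Set (X k)) (B N : ℕ → ℝ) : Prop where
  meas : ∀ i ≤ M, MeasurableSet (V i)
  lo : ∀ i ≤ M, ∀ w ∈ V i, B i ≤ ‖u (q ^ i * L) w‖
  hi : ∀ i ≤ M, ∀ w ∈ V i, ‖u (q ^ i * L) w‖ ≤ ρ * B i
  B_lo : ∀ i ≤ M, a ≤ B i
  B_hi : ∀ i ≤ M, B i ≤ b
  one_le : ∀ i < M, 1 ≤ N i
  n_le : ∀ i < M, N i ≤ q
  card_lo : ∀ i < M, ∀ w ∈ V (i + 1), N i ≤ ((pos q (V i) w).card : ℝ)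
  card_hi : ∀ i < M, ∀ w ∈ V (i + 1), ((pos q (V i) w).card : ℝ) ≤ ρ * N i
  carry : ∀ i < M, ∀ w ∈ V (i + 1), (q : ℝ) * ‖u (q ^ (i + 1) * L) w‖ ≤
    T * ‖sm q (q ^ i * L) (V i) w‖

theorem Up.shrink {k q L M : ℕ} {T ρ a b : ℝ} {V : ℕ → Set (X k)} {B N : ℕ → ℝ}
    (h : Up k q L M T ρ a b V B N) {S : Set (X k)} (hS : S ⊆ V M) (hm : MeasurableSet S) :
    Up k q L M T ρ a b (fun l => if l = M then S else V l) B N := by
  have hsub : ∀ i, (fun l => if l = M then S else V l) i ⊆ V i := by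
    intro i
    change (if i = M then S else V i) ⊆ V i
    by_cases hi : i = M
    · rw [if_pos hi, hi]; exact hS
    · rw [if_neg hi]
  have heq : ∀ i, i < M → (if i = M then S else V i) = V i := fun i hi => if_neg hi.ne
  refine ⟨?_, ?_, ?_, h.B_lo, h.B_hi, h.one_le, h.n_le, ?_, ?_, ?_⟩
  · intro i hi
    change MeasurableSet (if i = M then S else V i)
    by_cases hi' : i = M
    · rw [if_pos hi']; exact hm
    · rw [if_neg hi']; exact h.meas i hi
  · intro i hi w hw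
    exact h.lo i hi w (hsub i hw)
  · intro i hi w hw
    exact h.hi i hi w (hsub i hw)
  · intro i hi w hw
    rw [heq i hi]
    exact h.card_lo i hi w (hsub _ hw)
  · intro i hi w hw
    rw [heq i hi]
    exact h.card_hi i hi w (hsub _ hw)
  · intro i hi w hw
    rw [heq i hi]
    exact h.carry i hi w (hsub _ hw)

theorem Up.extend {k q L M : ℕ} {T T' ρ a b : ℝ} {V : ℕ → Set (X k)} {B N : ℕ → ℝ}
    (h : Up k q L M T ρ a b V B N) (hT : T ≤ T') {S : Set (X k)} {b0 n0 : ℝ}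
    (hm : MeasurableSet S) (h1 : ∀ w ∈ S, b0 ≤ ‖u (q ^ (M + 1) * L) w‖)
    (h2 : ∀ w ∈ S, ‖u (q ^ (M + 1) * L) w‖ ≤ ρ * b0) (h3 : a ≤ b0) (h4 : b0 ≤ b)
    (h5 : 1 ≤ n0) (h6 : n0 ≤ q) (h7 : ∀ w ∈ S, n0 ≤ ((pos q (V M) w).card : ℝ))
    (h8 : ∀ w ∈ S, ((pos q (V M) w).card : ℝ) ≤ ρ * n0)
    (h9 : ∀ w ∈ S, (q : ℝ) * ‖u (q ^ (M + 1) * L) w‖ ≤ T' * ‖sm q (q ^ M * L) (V M) w‖) :
    Up k q L (M + 1) T' ρ a b (fun l => if l = M + 1 then S else V l)
      (fun l => if l = M + 1 then b0 else B l) (fun l => if l = M then n0 else N l) := by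
  have hne : ∀ i, i < M + 1 → (if i = M + 1 then S else V i) = V i := fun i hi => if_neg hi.ne
  have heq : (if M + 1 = M + 1 then S else V (M + 1)) = S := if_pos rfl
  have bne : ∀ i, i < M + 1 → (if i = M + 1 then b0 else B i) = B i := fun i hi => if_neg hi.ne
  have beq : (if M + 1 = M + 1 then b0 else B (M + 1)) = b0 := if_pos rfl
  have nne : ∀ i, i < M → (if i = M then n0 else N i) = N i := fun i hi => if_neg hi.ne
  have neq : (if M = M then n0 else N M) = n0 := if_pos rfl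
  refine ⟨?_, ?_, ?_, ?_, ?_, ?_, ?_, ?_, ?_, ?_⟩
  · intro i hi
    rcases Nat.lt_or_ge i (M + 1) with h' | h'
    · rw [hne i h']; exact h.meas i (by omega)
    · obtain rfl : i = M + 1 := by omega
      rw [heq]; exact hm
  · intro i hi w hw
    rcases Nat.lt_or_ge i (M + 1) with h' | h'
    · rw [hne i h'] at hw
      rw [bne i h']
      exact h.lo i (by omega) w hw
    · obtain rfl : i = M + 1 := by omega
      rw [heq] at hw
      rw [beq]
      exact h1 w hw
  · intro i hi w hw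
    rcases Nat.lt_or_ge i (M + 1) with h' | h'
    · rw [hne i h'] at hw
      rw [bne i h']
      exact h.hi i (by omega) w hw
    · obtain rfl : i = M + 1 := by omega
      rw [heq] at hw
      rw [beq]
      exact h2 w hw
  · intro i hi
    rcases Nat.lt_or_ge i (M + 1) with h' | h'
    · rw [bne i h']; exact h.B_lo i (by omega)
    · obtain rfl : i = M + 1 := by omega
      rw [beq]; exact h3
  · intro i hi
    rcases Nat.lt_or_ge i (M + 1) with h' | h'
    · rw [bne i h']; exact h.B_hi i (by omega)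
    · obtain rfl : i = M + 1 := by omega
      rw [beq]; exact h4
  · intro i hi
    rcases Nat.lt_or_ge i M with h' | h'
    · rw [nne i h']; exact h.one_le i h'
    · obtain rfl : i = M := by omega
      rw [neq]; exact h5
  · intro i hi
    rcases Nat.lt_or_ge i M with h' | h'
    · rw [nne i h']; exact h.n_le i h'
    · obtain rfl : i = M := by omega
      rw [neq]; exact h6
  · intro i hi w hw
    rw [hne i hi]
    rcases Nat.lt_or_ge i M with h' | h'
    · rw [hne (i + 1) (by omega)] at hw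
      rw [nne i h']
      exact h.card_lo i h' w hw
    · obtain rfl : i = M := by omega
      rw [heq] at hw
      rw [neq]
      exact h7 w hw
  · intro i hi w hw
    rw [hne i hi]
    rcases Nat.lt_or_ge i M with h' | h'
    · rw [hne (i + 1) (by omega)] at hw
      rw [nne i h']
      exact h.card_hi i h' w hw
    · obtain rfl : i = M := by omega
      rw [heq] at hw
      rw [neq]
      exact h8 w hw
  · intro i hi w hw
    rw [hne i hi]
    rcases Nat.lt_or_ge i M with h' | h'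
    · rw [hne (i + 1) (by omega)] at hw
      exact (h.carry i h' w hw).trans (mul_le_mul_of_nonneg_right hT (norm_nonneg _))
    · obtain rfl : i = M := by omega
      rw [heq] at hw
      exact h9 w hw

/-- make the top sets disjoint, and index by `Fin` -/
theorem disj {k q L M : ℕ} {T ρ a b : ℝ} {κ : Type} {NN : ℕ} (g : κ ≃ Fin NN)
    (V : κ → ℕ → Set (X k)) (B N : κ → ℕ → ℝ) (h : ∀ c, Up k q L M T ρ a b (V c) (B c) (N c)) :
    ∃ (V' : Fin NN → ℕ → Set (X k)) (B' N' : Fin NN → ℕ → ℝ),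
      (∀ c, Up k q L M T ρ a b (V' c) (B' c) (N' c)) ∧
      (∀ c c', c ≠ c' → Disjoint (V' c M) (V' c' M)) ∧
      ∀ w c, w ∈ V c M → ∃ c', w ∈ V' c' M := by
  let S : Fin NN → Set (X k) := fun c =>
    V (g.symm c) M \ ⋃ c' : Fin NN, ⋃ _ : c' < c, V (g.symm c') M
  have hS : ∀ c, S c ⊆ V (g.symm c) M := fun c => Set.diff_subset
  have hm : ∀ c, MeasurableSet (S c) := fun c =>
    ((h _).meas M le_rfl).diff (MeasurableSet.iUnion fun c' => MeasurableSet.iUnion fun _ =>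
      (h _).meas M le_rfl)
  have hlt : ∀ c c', c < c' → Disjoint (S c) (S c') := by
    intro c c' hcc
    rw [Set.disjoint_left]
    intro w hw hw'
    refine hw'.2 ?_
    exact Set.mem_iUnion₂.mpr ⟨c, hcc, hS c hw⟩
  refine ⟨fun c l => if l = M then S c else V (g.symm c) l, fun c => B (g.symm c),
    fun c => N (g.symm c), fun c => (h _).shrink (hS c) (hm c), ?_, ?_⟩
  · intro c c' hcc
    change Disjoint (if M = M then S c else V (g.symm c) M)
      (if M = M then S c' else V (g.symm c') M)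
    rw [if_pos rfl, if_pos rfl]
    rcases lt_or_gt_of_ne hcc with h1 | h1
    · exact hlt _ _ h1
    · exact (hlt _ _ h1).symm
  · intro w c hw
    have hne : ∃ c' : Fin NN, w ∈ V (g.symm c') M := ⟨g c, by rw [Equiv.symm_apply_apply]; exact hw⟩
    obtain ⟨c', hc', hmin⟩ := WellFounded.has_min (wellFounded_lt (α := Fin NN))
      {c' | w ∈ V (g.symm c') M} hne
    refine ⟨c', ?_⟩
    change w ∈ (if M = M then S c' else V (g.symm c') M)
    rw [if_pos rfl]
    refine ⟨hc', ?_⟩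
    intro h1
    obtain ⟨c'', h2, h3⟩ := Set.mem_iUnion₂.mp h1
    exact hmin c'' h3 h2

/-! ### grids -/

theorem rho_gt {q : ℕ} {ε : ℝ} (hq : 2 ≤ q) (hε : 0 < ε) : 1 < (q : ℝ) ^ ε :=
  Real.one_lt_rpow (by exact_mod_cast hq) hε

theorem exp_lt {q : ℕ} {ε : ℝ} (hq : 2 ≤ q) (hε : 0 < ε) {n : ℕ} {t : ℝ}
    (h : ((q : ℝ) ^ ε) ^ n ≤ (q : ℝ) ^ t) : n < ⌈t / ε⌉₊ + 1 := by
  have hq1 : (1 : ℝ) < q := by exact_mod_cast hq
  rw [← Real.rpow_natCast, ← Real.rpow_mul (by linarith)] at h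
  have h1 : ε * n ≤ t := (Real.rpow_le_rpow_left_iff hq1).mp h
  have h2 : (n : ℝ) ≤ t / ε := by
    rw [le_div_iff₀ hε]
    linarith
  have h3 : (n : ℝ) ≤ (⌈t / ε⌉₊ : ℝ) := h2.trans (Nat.le_ceil _)
  have h4 : n ≤ ⌈t / ε⌉₊ := by exact_mod_cast h3
  omega

/-- the heights -/
theorem grid_h {q m : ℕ} {ε a x : ℝ} (hq : 2 ≤ q) (hε : 0 < ε) (ha : 0 < a) (h1 : a ≤ x)
    (h2 : x < a * (2 * q) ^ m) : ∃ h : Fin (⌈(2 * m : ℝ) / ε⌉₊ + 1),
      a * ((q : ℝ) ^ ε) ^ (h : ℕ) ≤ x ∧ x ≤ (q : ℝ) ^ ε * (a * ((q : ℝ) ^ ε) ^ (h : ℕ)) := by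
  have hρ := rho_gt hq hε
  have hq2 : (2 : ℝ) ≤ q := by exact_mod_cast hq
  obtain ⟨n, hn1, hn2⟩ := exists_nat_pow_near (x := x / a) (y := (q : ℝ) ^ ε)
    ((one_le_div ha).mpr h1) hρ
  have h3 : ((q : ℝ) ^ ε) ^ n ≤ (q : ℝ) ^ (2 * m : ℝ) := by
    have e1 : (q : ℝ) ^ (2 * m : ℝ) = ((q : ℝ) * q) ^ m := by
      have : (2 * m : ℝ) = ((2 * m : ℕ) : ℝ) := by push_cast; ring
      rw [this, Real.rpow_natCast, pow_mul, sq]
    rw [e1]
    refine hn1.trans ?_
    rw [div_le_iff₀ ha]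
    refine h2.le.trans ?_
    rw [mul_comm]
    refine mul_le_mul_of_nonneg_right ?_ ha.le
    exact pow_le_pow_left₀ (by positivity) (mul_le_mul_of_nonneg_right hq2 (by positivity)) m
  refine ⟨⟨n, exp_lt hq hε h3⟩, ?_, ?_⟩
  · rw [le_div_iff₀ ha] at hn1
    linarith
  · rw [div_lt_iff₀ ha, pow_succ] at hn2
    nlinarith

/-- the counts -/
theorem grid_n {q : ℕ} {ε x : ℝ} (hq : 2 ≤ q) (hε : 0 < ε) (h1 : 1 ≤ x) (h2 : x ≤ q) :
    ∃ h : Fin (⌈(1 : ℝ) / ε⌉₊ + 1),
      ((q : ℝ) ^ ε) ^ (h : ℕ) ≤ x ∧ x ≤ (q : ℝ) ^ ε * ((q : ℝ) ^ ε) ^ (h : ℕ) := by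
  have hρ := rho_gt hq hε
  obtain ⟨n, hn1, hn2⟩ := exists_nat_pow_near h1 hρ
  have h3 : ((q : ℝ) ^ ε) ^ n ≤ (q : ℝ) ^ (1 : ℝ) := by
    rw [Real.rpow_one]
    exact hn1.trans h2
  refine ⟨⟨n, exp_lt hq hε h3⟩, hn1, ?_⟩
  rw [pow_succ] at hn2
  linarith

/-! ### the induction -/

/-- no descendant is too high -/
def Low (k q L M : ℕ) (b : ℝ) (w : X k) : Prop :=
  ∀ c : List ℕ, c.length ≤ M → (∀ x ∈ c, x < q) → ‖u (q ^ (M - c.length) * L) (Ch q c w)‖ < b

/-- the statement of the induction -/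
def Cl (k m : ℕ) (ε : ℝ) (M : ℕ) : Prop :=
  ∃ (NN : ℕ) (T : ℝ), 1 ≤ T ∧ ∀ (q L : ℕ) (a : ℝ), 2 ≤ q → 1 ≤ L → 0 < a →
    ∃ (V : Fin NN → ℕ → Set (X k)) (B N : Fin NN → ℕ → ℝ),
      (∀ c, Up k q L M T ((q : ℝ) ^ ε) a (a * (2 * q) ^ m) (V c) (B c) (N c)) ∧
      (∀ c c', c ≠ c' → Disjoint (V c M) (V c' M)) ∧
      ∀ w, a * 2 ^ M ≤ ‖u (q ^ M * L) w‖ → Low k q L M (a * (2 * q) ^ m) w → ∃ c, w ∈ V c M

/-- the height of the class `h` -/
noncomputable def bh (q : ℕ) (ε a b : ℝ) (h : ℕ) : ℝ :=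
  if a * ((q : ℝ) ^ ε) ^ h ≤ b then a * ((q : ℝ) ^ ε) ^ h else a

theorem bh_lo {q : ℕ} {ε a b : ℝ} (hq : 2 ≤ q) (hε : 0 < ε) (ha : 0 < a) (h : ℕ) :
    a ≤ bh q ε a b h := by
  unfold bh
  split_ifs
  · exact le_mul_of_one_le_right ha.le (one_le_pow₀ (rho_gt hq hε).le)
  · exact le_rfl

theorem bh_hi {q : ℕ} {ε a b : ℝ} (hab : a ≤ b) (h : ℕ) : bh q ε a b h ≤ b := by
  unfold bh
  split_ifs with h1
  · exact h1
  · exact hab

/-- the count of the class `p` -/
noncomputable def nh (q : ℕ) (ε : ℝ) (p : ℕ) : ℝ :=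
  if ((q : ℝ) ^ ε) ^ p ≤ q then ((q : ℝ) ^ ε) ^ p else 1

theorem nh_lo {q : ℕ} {ε : ℝ} (hq : 2 ≤ q) (hε : 0 < ε) (p : ℕ) : 1 ≤ nh q ε p := by
  unfold nh
  split_ifs
  · exact one_le_pow₀ (rho_gt hq hε).le
  · exact le_rfl

theorem nh_hi {q : ℕ} {ε : ℝ} (hq : 2 ≤ q) (p : ℕ) : nh q ε p ≤ q := by
  unfold nh
  split_ifs with h1
  · exact h1
  · exact_mod_cast (by omega : 1 ≤ q)

theorem le_top {q m : ℕ} {a : ℝ} (hq : 2 ≤ q) (ha : 0 < a) : a ≤ a * (2 * (q : ℝ)) ^ m := by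
  refine le_mul_of_one_le_right ha.le (one_le_pow₀ ?_)
  have : (2 : ℝ) ≤ q := by exact_mod_cast hq
  linarith

theorem base (hEX : T_EX) (k m : ℕ) (ε : ℝ) (hε : 0 < ε) : Cl k m ε 0 := by
  refine ⟨⌈(2 * m : ℝ) / ε⌉₊ + 1, 1, le_rfl, fun q L a hq hL ha => ?_⟩
  have hup : ∀ h : Fin (⌈(2 * m : ℝ) / ε⌉₊ + 1),
      Up k q L 0 1 ((q : ℝ) ^ ε) a (a * (2 * q) ^ m)
        (fun _ => {w | bh q ε a (a * (2 * q) ^ m) h ≤ ‖u (q ^ 0 * L) w‖ ∧
          ‖u (q ^ 0 * L) w‖ ≤ (q : ℝ) ^ ε * bh q ε a (a * (2 * q) ^ m) h})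
        (fun _ => bh q ε a (a * (2 * q) ^ m) h) (fun _ => 1) := by
    intro h
    refine ⟨?_, ?_, ?_, ?_, ?_, ?_, ?_, ?_, ?_, ?_⟩
    · intro i _
      exact (measurableSet_le measurable_const (nu_meas hEX _)).inter
        (measurableSet_le (nu_meas hEX _) measurable_const)
    · intro i hi w hw
      obtain rfl : i = 0 := by omega
      exact hw.1
    · intro i hi w hw
      obtain rfl : i = 0 := by omega
      exact hw.2
    · intro i _
      exact bh_lo hq hε ha _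
    · intro i _
      exact bh_hi (le_top hq ha) _
    all_goals
      intro i hi
      exact absurd hi (Nat.not_lt_zero i)
  obtain ⟨V', B', N', h1, h2, h3⟩ := disj (Equiv.refl _) _ _ _ hup
  refine ⟨V', B', N', h1, h2, ?_⟩
  intro w hw hlow
  have h4 : ‖u (q ^ 0 * L) w‖ < a * (2 * q) ^ m := hlow [] (le_refl 0) (by simp)
  rw [pow_zero, mul_one] at hw
  obtain ⟨h, h5, h6⟩ := grid_h hq hε ha hw h4
  refine h3 w h ?_
  have h7 : bh q ε a (a * (2 * q) ^ m) h = a * ((q : ℝ) ^ ε) ^ (h : ℕ) := by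
    unfold bh
    exact if_pos (h5.trans h4.le)
  change bh q ε a (a * (2 * q) ^ m) h ≤ ‖u (q ^ 0 * L) w‖ ∧
    ‖u (q ^ 0 * L) w‖ ≤ (q : ℝ) ^ ε * bh q ε a (a * (2 * q) ^ m) h
  rw [h7]
  exact ⟨h5, h6⟩

/-- one class carries a large part of the sum -/
theorem pigeon {k q N NN : ℕ} (V : Fin NN → Set (X k))
    (hd : ∀ c c', c ≠ c' → Disjoint (V c) (V c')) (w : X k) (s t : ℝ) (hs : 0 < s)
    (hx : ∀ b, ‖e (P w b) * u N (phi q b w)‖ = ‖u N (phi q b w)‖)
    (hsum : ‖∑ b ∈ range q, e (P w b) * u N (phi q b w)‖ = s)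
    (hrest : ∀ b ∈ range q, (∀ c, phi q b w ∉ V c) → ‖u N (phi q b w)‖ ≤ t)
    (hqt : (q : ℝ) * t ≤ s / 2) :
    ∃ c, s ≤ 2 * NN * ‖sm q N (V c) w‖ := by
  classical
  have hdec : ∑ b ∈ range q, e (P w b) * u N (phi q b w) =
      ∑ c, sm q N (V c) w + ∑ b ∈ (range q).filter (fun b => ∀ c, phi q b w ∉ V c),
        e (P w b) * u N (phi q b w) := by
    rw [← Finset.sum_filter_add_sum_filter_not (range q) (fun b => ∀ c, phi q b w ∉ V c),
      add_comm]
    congr 1
    unfold sm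
    rw [← Finset.sum_biUnion]
    · refine Finset.sum_congr ?_ fun _ _ => rfl
      ext b
      simp only [Finset.mem_filter, Finset.mem_biUnion, Finset.mem_univ, true_and, pos,
        not_forall, not_not]
      exact ⟨fun ⟨h1, c, h2⟩ => ⟨c, h1, h2⟩, fun ⟨c, h1, h2⟩ => ⟨h1, c, h2⟩⟩
    · intro c _ c' _ hcc
      change Disjoint (pos q (V c) w) (pos q (V c') w)
      rw [Finset.disjoint_left]
      intro b hb hb'
      unfold pos at hb hb'
      rw [Finset.mem_filter] at hb hb'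
      exact Set.disjoint_left.mp (hd c c' hcc) hb.2 hb'.2
  have hr : ‖∑ b ∈ (range q).filter (fun b => ∀ c, phi q b w ∉ V c),
      e (P w b) * u N (phi q b w)‖ ≤ s / 2 := by
    by_cases ht : 0 ≤ t
    · refine (norm_sum_le _ _).trans ?_
      refine le_trans ?_ hqt
      calc ∑ b ∈ (range q).filter (fun b => ∀ c, phi q b w ∉ V c),
            ‖e (P w b) * u N (phi q b w)‖
          ≤ ∑ _b ∈ (range q).filter (fun b => ∀ c, phi q b w ∉ V c), t := by
            refine Finset.sum_le_sum fun b hb => ?_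
            rw [Finset.mem_filter] at hb
            rw [hx]
            exact hrest b hb.1 hb.2
        _ = ((range q).filter (fun b => ∀ c, phi q b w ∉ V c)).card * t := by
            rw [Finset.sum_const, nsmul_eq_mul]
        _ ≤ q * t := by
            refine mul_le_mul_of_nonneg_right ?_ ht
            have := Finset.card_filter_le (range q) (fun b => ∀ c, phi q b w ∉ V c)
            rw [Finset.card_range] at this
            exact_mod_cast this
    · have hem : (range q).filter (fun b => ∀ c, phi q b w ∉ V c) = ∅ := by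
        rw [Finset.filter_eq_empty_iff]
        intro b hb h
        exact ht ((norm_nonneg _).trans (hrest b hb h))
      rw [hem, Finset.sum_empty, norm_zero]
      linarith
  have h1 : s / 2 ≤ ∑ c, ‖sm q N (V c) w‖ := by
    have h2 : s ≤ ‖∑ c, sm q N (V c) w‖ + s / 2 := by
      rw [← hsum]
      nth_rewrite 1 [hdec]
      refine (norm_add_le _ _).trans ?_
      rw [hsum]
      linarith
    have h3 := norm_sum_le (univ : Finset (Fin NN)) (fun c => sm q N (V c) w)
    linarith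
  by_contra hcon
  push Not at hcon
  have hNN : 0 < NN := by
    rcases Nat.eq_zero_or_pos NN with h0 | h0
    · subst h0
      simp at h1
      linarith
    · exact h0
  have hNN' : (0 : ℝ) < NN := by exact_mod_cast hNN
  haveI : Nonempty (Fin NN) := ⟨⟨0, hNN⟩⟩
  have h4 : ∑ c : Fin NN, ‖sm q N (V c) w‖ < ∑ _c : Fin NN, s / (2 * NN) := by
    refine Finset.sum_lt_sum_of_nonempty Finset.univ_nonempty fun c _ => ?_
    rw [lt_div_iff₀ (by positivity)]
    have := hcon c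
    linarith
  rw [Finset.sum_const, Finset.card_univ, Fintype.card_fin, nsmul_eq_mul] at h4
  have h5 : (NN : ℝ) * (s / (2 * NN)) = s / 2 := by
    field_simp
  rw [h5] at h4
  linarith

theorem step (hEX : T_EX) (hPF : T_PF) (k m : ℕ) (ε : ℝ) (hε : 0 < ε) (M : ℕ)
    (h : Cl k m ε M) : Cl k m ε (M + 1) := by
  classical
  obtain ⟨NN, T, hT, h⟩ := h
  refine ⟨Fintype.card (Fin NN × Fin (⌈(2 * m : ℝ) / ε⌉₊ + 1) × Fin (⌈(1 : ℝ) / ε⌉₊ + 1)),
    max T (2 * NN), hT.trans (le_max_left _ _), fun q L a hq hL ha => ?_⟩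
  obtain ⟨V, B, N, hup, hdis, hcov⟩ := h q L a hq hL ha
  have hup' : ∀ c : Fin NN × Fin (⌈(2 * m : ℝ) / ε⌉₊ + 1) × Fin (⌈(1 : ℝ) / ε⌉₊ + 1),
      Up k q L (M + 1) (max T (2 * NN)) ((q : ℝ) ^ ε) a (a * (2 * q) ^ m)
        (fun l => if l = M + 1 then {w | (bh q ε a (a * (2 * q) ^ m) c.2.1 ≤
            ‖u (q ^ (M + 1) * L) w‖ ∧
          ‖u (q ^ (M + 1) * L) w‖ ≤ (q : ℝ) ^ ε * bh q ε a (a * (2 * q) ^ m) c.2.1) ∧
          (nh q ε c.2.2 ≤ ((pos q (V c.1 M) w).card : ℝ) ∧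
          ((pos q (V c.1 M) w).card : ℝ) ≤ (q : ℝ) ^ ε * nh q ε c.2.2) ∧
          (q : ℝ) * ‖u (q ^ (M + 1) * L) w‖ ≤ max T (2 * NN) * ‖sm q (q ^ M * L) (V c.1 M) w‖}
          else V c.1 l)
        (fun l => if l = M + 1 then bh q ε a (a * (2 * q) ^ m) c.2.1 else B c.1 l)
        (fun l => if l = M then nh q ε c.2.2 else N c.1 l) := by
    intro c
    have hVm := (hup c.1).meas M le_rfl
    refine (hup c.1).extend (le_max_left _ _) ?_ (fun w hw => hw.1.1) (fun w hw => hw.1.2)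
      (bh_lo hq hε ha _) (bh_hi (le_top hq ha) _) (nh_lo hq hε _) (nh_hi hq _)
      (fun w hw => hw.2.1.1) (fun w hw => hw.2.1.2) (fun w hw => hw.2.2)
    refine MeasurableSet.inter ?_ (MeasurableSet.inter ?_ ?_)
    · exact (measurableSet_le measurable_const (nu_meas hEX _)).inter
        (measurableSet_le (nu_meas hEX _) measurable_const)
    · exact (measurableSet_le measurable_const (card_meas q hVm)).inter
        (measurableSet_le (card_meas q hVm) measurable_const)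
    · exact measurableSet_le ((nu_meas hEX _).const_mul _)
        ((sm_meas hEX q _ hVm).norm.const_mul _)
  obtain ⟨V', B', N', h1, h2, h3⟩ := disj (Fintype.equivFin _) _ _ _ hup'
  refine ⟨V', B', N', h1, h2, ?_⟩
  intro w hw hlow
  have hq0 : (0 : ℝ) < q := by
    have : (2 : ℝ) ≤ q := by exact_mod_cast hq
    linarith
  have hw0 : 0 < ‖u (q ^ (M + 1) * L) w‖ := lt_of_lt_of_le (by positivity) hw
  -- the children are low
  have hchild : ∀ b < q, Low k q L M (a * (2 * q) ^ m) (phi q b w) := by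
    intro b hb c hc hc'
    have h4 := hlow (b :: c) (by simpa using hc) (by
      intro x hx
      rcases List.mem_cons.mp hx with h5 | h5
      · rw [h5]; exact hb
      · exact hc' x h5)
    have h5 : M + 1 - (b :: c).length = M - c.length := by
      rw [List.length_cons]
      omega
    rw [h5] at h4
    exact h4
  -- splitting
  have hL' : 1 ≤ q ^ M * L := Nat.mul_pos (pow_pos (by omega) _) hL
  have hsp := hPF.2 k q (q ^ M * L) (by omega) hL' w
  have hlen : q * (q ^ M * L) = q ^ (M + 1) * L := by ring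
  rw [hlen] at hsp
  have hsum : ‖∑ b ∈ range q, e (P w b) * u (q ^ M * L) (phi q b w)‖ =
      q * ‖u (q ^ (M + 1) * L) w‖ := by
    rw [hsp, norm_mul, norm_div, norm_one, Complex.norm_natCast, ← mul_assoc,
      mul_one_div_cancel hq0.ne', one_mul]
  obtain ⟨c, hc⟩ := pigeon (q := q) (N := q ^ M * L) (fun c => V c M) hdis w
    (q * ‖u (q ^ (M + 1) * L) w‖) (a * 2 ^ M) (by positivity)
    (fun b => by rw [norm_mul, hEX.1, one_mul]) hsum (by
      intro b hb hb'
      by_contra hcon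
      obtain ⟨c, hc⟩ := hcov (phi q b w) (not_le.mp hcon).le (hchild b (Finset.mem_range.mp hb))
      exact hb' c hc) (by
      have h5 : (q : ℝ) * (a * 2 ^ (M + 1)) ≤ q * ‖u (q ^ (M + 1) * L) w‖ :=
        mul_le_mul_of_nonneg_left hw hq0.le
      rw [pow_succ] at h5
      linarith)
  have hcar : (q : ℝ) * ‖u (q ^ (M + 1) * L) w‖ ≤
      max T (2 * NN) * ‖sm q (q ^ M * L) (V c M) w‖ :=
    hc.trans (mul_le_mul_of_nonneg_right (le_max_right _ _) (norm_nonneg _))
  -- the number of children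
  have hne : (pos q (V c M) w).Nonempty := by
    by_contra hcon
    rw [Finset.not_nonempty_iff_eq_empty] at hcon
    have h5 : sm q (q ^ M * L) (V c M) w = 0 := by
      unfold sm
      rw [hcon, Finset.sum_empty]
    rw [h5, norm_zero, mul_zero] at hcar
    have : 0 < (q : ℝ) * ‖u (q ^ (M + 1) * L) w‖ := by positivity
    linarith
  have hc1 : (1 : ℝ) ≤ ((pos q (V c M) w).card : ℝ) := by
    exact_mod_cast hne.card_pos
  have hc2 : ((pos q (V c M) w).card : ℝ) ≤ q := by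
    have h5 : (pos q (V c M) w).card ≤ (range q).card := by
      unfold pos
      exact Finset.card_filter_le _ _
    rw [Finset.card_range] at h5
    exact_mod_cast h5
  obtain ⟨p, hp1, hp2⟩ := grid_n hq hε hc1 hc2
  have hnp : nh q ε p = ((q : ℝ) ^ ε) ^ (p : ℕ) := by
    unfold nh
    exact if_pos (hp1.trans hc2)
  -- the height
  have h4 : ‖u (q ^ (M + 1) * L) w‖ < a * (2 * q) ^ m := hlow [] (Nat.zero_le _) (by simp)
  have hw' : a ≤ ‖u (q ^ (M + 1) * L) w‖ :=
    le_trans (le_mul_of_one_le_right ha.le (one_le_pow₀ (by norm_num))) hw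
  obtain ⟨h, h5, h6⟩ := grid_h hq hε ha hw' h4
  have hbh : bh q ε a (a * (2 * q) ^ m) h = a * ((q : ℝ) ^ ε) ^ (h : ℕ) := by
    unfold bh
    exact if_pos (h5.trans h4.le)
  refine h3 w (c, h, p) ?_
  change w ∈ (if M + 1 = M + 1 then {w | (bh q ε a (a * (2 * q) ^ m) h ≤
            ‖u (q ^ (M + 1) * L) w‖ ∧
          ‖u (q ^ (M + 1) * L) w‖ ≤ (q : ℝ) ^ ε * bh q ε a (a * (2 * q) ^ m) h) ∧
          (nh q ε p ≤ ((pos q (V c M) w).card : ℝ) ∧
          ((pos q (V c M) w).card : ℝ) ≤ (q : ℝ) ^ ε * nh q ε p) ∧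
          (q : ℝ) * ‖u (q ^ (M + 1) * L) w‖ ≤ max T (2 * NN) * ‖sm q (q ^ M * L) (V c M) w‖}
          else V c (M + 1))
  rw [if_pos rfl, hbh, hnp]
  exact ⟨⟨h5, h6⟩, ⟨hp1, hp2⟩, hcar⟩

/-- TY -/
theorem pf_TY (hEX : T_EX) (hPF : T_PF) : T_TY := by
  intro k m ε _ hε
  have hCl : ∀ M, Cl k m ε M := by
    intro M
    induction M with
    | zero => exact base hEX k m ε hε
    | succ M ih => exact step hEX hPF k m ε hε M ih
  obtain ⟨NN, T, hT, h⟩ := hCl m
  refine ⟨NN, T, hT, fun q L t₀ hq hL ht => ?_⟩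
  have hq0 : (0 : ℝ) < q := by
    have : (2 : ℝ) ≤ q := by exact_mod_cast hq
    linarith
  obtain ⟨V, B, N, hup, -, hcov⟩ := h q L (t₀ / 2 ^ m) hq hL (by positivity)
  have htop : t₀ / 2 ^ m * (2 * (q : ℝ)) ^ m = t₀ * (q : ℝ) ^ m := by
    rw [mul_pow]
    field_simp
  rw [htop] at hcov
  simp only [htop] at hup
  refine ⟨fun c j => V c (m - j), fun c j => B c (m - j), fun c j => N c (m - (j + 1)), ?_, ?_⟩
  · intro c
    have hs : ∀ j, j < m → m - j = (m - (j + 1)) + 1 := fun j hj => by omega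
    refine ⟨?_, ?_, ?_, ?_, ?_, ?_, ?_, ?_, ?_, ?_⟩
    · intro j _
      exact (hup c).meas _ (Nat.sub_le _ _)
    · intro j _ w hw
      exact (hup c).lo _ (Nat.sub_le _ _) w hw
    · intro j _ w hw
      exact (hup c).hi _ (Nat.sub_le _ _) w hw
    · intro j _
      exact (hup c).B_lo _ (Nat.sub_le _ _)
    · intro j _
      exact (hup c).B_hi _ (Nat.sub_le _ _)
    · intro j hj
      exact (hup c).one_le _ (by omega)
    · intro j hj
      exact (hup c).n_le _ (by omega)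
    · intro j hj w hw
      refine (hup c).card_lo (m - (j + 1)) (by omega) w ?_
      rw [← hs j hj]
      exact hw
    · intro j hj w hw
      refine (hup c).card_hi (m - (j + 1)) (by omega) w ?_
      rw [← hs j hj]
      exact hw
    · intro j hj w hw
      have h1 := (hup c).carry (m - (j + 1)) (by omega) w (by rw [← hs j hj]; exact hw)
      rw [← hs j hj] at h1
      exact h1
  · intro w hw
    by_cases hE : w ∈ Etop k q m L (t₀ * (q : ℝ) ^ m)
    · exact Or.inr hE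
    · left
      have h1 : t₀ / 2 ^ m * 2 ^ m ≤ ‖u (q ^ m * L) w‖ := by
        rw [div_mul_cancel₀ _ (by positivity)]
        exact hw
      obtain ⟨c, hc⟩ := hcov w h1 (by
        intro c hc hc'
        by_contra hcon
        exact hE ⟨c, hc, hc', not_lt.mp hcon⟩)
      exact Set.mem_iUnion.mpr ⟨c, hc⟩

end Pool.Agent.H4.CLV
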